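import Mathlib

/-!
Clique graphs, their iterates, and triangular covering maps.
-/

set_option autoImplicit false

namespace Pool.Agent.MP_3c8d56_co

universe u

/-- The clique graph: its vertices are the cliques (inclusion-maximal complete subgraphs) of `G`,
two distinct cliques being adjacent when they share a vertex. -/
def cliqueGraph {V : Type u} (G : SimpleGraph V) :
    SimpleGraph {S : Set V // Maximal (fun T : Set V => G.IsClique T) S} where
  Adj A B := A ≠ B ∧ (A.1 ∩ B.1).Nonempty
  symm := ⟨fun _ _ h => ⟨h.1.symm, by rw [Set.inter_comm]; exact h.2⟩⟩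
  loopless := ⟨fun _ h => h.1 rfl⟩

/-- The `n`-th iterated clique graph `k^n G`, with its vertex type. -/
def iterClique : ℕ → (X : Σ V : Type u, SimpleGraph V) → (Σ V : Type u, SimpleGraph V)
  | 0, X => X
  | n + 1, X => ⟨_, cliqueGraph (iterClique n X).2⟩

/-- `k^n G ≅ G`. -/
def IsCliquePeriodic (n : ℕ) {V : Type u} (G : SimpleGraph V) : Prop :=
  Nonempty ((iterClique n ⟨V, G⟩).2 ≃g G)

/-- The closed neighbourhood `N[v]`. -/
def closedNbhd {V : Type*} (G : SimpleGraph V) (v : V) : Set V := {w | w = v ∨ G.Adj v w}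

/-- `p` is a triangular covering map `G' → G`: a homomorphism between connected graphs whose
restriction to every closed neighbourhood `N[v]` is an isomorphism onto `N[p v]`. -/
structure IsTriangularCovering {V' V : Type*} (G' : SimpleGraph V') (G : SimpleGraph V)
    (p : V' → V) : Prop where
  connected_source : G'.Connected
  connected_target : G.Connected
  map_adj : ∀ u v, G'.Adj u v → G.Adj (p u) (p v)
  bijOn : ∀ v, Set.BijOn p (closedNbhd G' v) (closedNbhd G (p v))
  adj_iff : ∀ v, ∀ x ∈ closedNbhd G' v, ∀ y ∈ closedNbhd G' v, G'.Adj x y ↔ G.Adj (p x) (p y)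

/-- Isomorphic graphs have isomorphic clique graphs. -/
lemma cliqueGraph_congr {V W : Type u} {G : SimpleGraph V} {H : SimpleGraph W} (e : G ≃g H) :
    Nonempty (cliqueGraph G ≃g cliqueGraph H) := by
  have hcl : ∀ S : Set V, G.IsClique S ↔ H.IsClique (e '' S) := by
    intro S
    constructor
    · rintro hS _ ⟨a, ha, rfl⟩ _ ⟨b, hb, rfl⟩ hab
      exact e.map_adj_iff.2 (hS ha hb (fun h => hab (by rw [h])))
    · intro hS a ha b hb hab
      exact e.map_adj_iff.1 (hS ⟨a, ha, rfl⟩ ⟨b, hb, rfl⟩ (fun h => hab (e.injective h)))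
  have hmax : ∀ S : Set V, Maximal (fun T : Set V => G.IsClique T) S ↔
      Maximal (fun T : Set W => H.IsClique T) (e '' S) := by
    intro S
    constructor
    · rintro ⟨h1, h2⟩
      refine ⟨(hcl S).1 h1, ?_⟩
      intro T hT hST
      have h3 : G.IsClique (e ⁻¹' T) := by
        rw [hcl, Set.image_preimage_eq T e.surjective]
        exact hT
      have h4 := h2 h3 (by
        intro x hx
        exact hST ⟨x, hx, rfl⟩)
      intro y hy
      obtain ⟨x, rfl⟩ := e.surjective y
      exact ⟨x, h4 hy, rfl⟩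
    · rintro ⟨h1, h2⟩
      refine ⟨(hcl S).2 h1, ?_⟩
      intro T hT hST
      have h4 := h2 ((hcl T).1 hT) (Set.image_mono hST)
      intro x hx
      obtain ⟨y, hy, hxy⟩ := h4 ⟨x, hx, rfl⟩
      rw [← e.injective hxy]
      exact hy
  refine ⟨⟨Equiv.ofBijective (fun A => ⟨e '' A.1, (hmax A.1).1 A.2⟩) ⟨?_, ?_⟩, ?_⟩⟩
  · intro A B h
    have := congrArg Subtype.val h
    exact Subtype.ext (e.injective.image_injective this)
  · rintro ⟨T, hT⟩
    refine ⟨⟨e ⁻¹' T, ?_⟩, ?_⟩
    · rw [hmax, Set.image_preimage_eq T e.surjective]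
      exact hT
    · exact Subtype.ext (Set.image_preimage_eq T e.surjective)
  · intro A B
    constructor
    · rintro ⟨h1, h2⟩
      refine ⟨fun h => h1 (by rw [h]), ?_⟩
      obtain ⟨_, ⟨x, hx, rfl⟩, ⟨y, hy, hxy⟩⟩ := h2
      rw [e.injective hxy] at hy
      exact ⟨x, hx, hy⟩
    · rintro ⟨h1, x, hx, hy⟩
      refine ⟨?_, e x, ⟨x, hx, rfl⟩, ⟨x, hy, rfl⟩⟩
      intro h
      apply h1
      have := congrArg Subtype.val h
      exact Subtype.ext (e.injective.image_injective this)

lemma iterClique_succ_congr {V W : Type u} {G : SimpleGraph V} {H : SimpleGraph W}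
    (e : Nonempty (cliqueGraph G ≃g H)) (n : ℕ) :
    Nonempty ((iterClique (n + 1) ⟨V, G⟩).2 ≃g (iterClique n ⟨W, H⟩).2) := by
  induction n with
  | zero => exact e
  | succ n ih =>
    obtain ⟨f⟩ := ih
    exact cliqueGraph_congr f

end Pool.Agent.MP_3c8d56_co
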