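import Mathlib
import Pool.Agent.Lib.MP_3c8d56_co.Defs

/-!
The graphs `vg α β` on `Γ × Fin 8`: an 8-vertex base graph (two 4-cycles `0123` and `4567`
and the two further edges `04`, `07`) lifted with the voltage `α` on the edge from `3` to `0` and
the voltage `β` on the edge from `5` to `6`.
-/

set_option autoImplicit false
set_option linter.unusedSimpArgs false
set_option linter.unusedTactic false
set_option linter.unreachableTactic false
set_option linter.unnecessarySeqFocus false

namespace Pool.Agent.MP_3c8d56_co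

universe u

variable {Γ : Type u} [Group Γ]

/-- The list of neighbours of a vertex. -/
def nb (α β : Γ) : Γ × Fin 8 → List (Γ × Fin 8)
  | (g, 0) => [(g, 1), (g * α⁻¹, 3), (g, 4), (g, 7)]
  | (g, 1) => [(g, 0), (g, 2)]
  | (g, 2) => [(g, 1), (g, 3)]
  | (g, 3) => [(g, 2), (g * α, 0)]
  | (g, 4) => [(g, 0), (g, 5), (g, 7)]
  | (g, 5) => [(g, 4), (g * β, 6)]
  | (g, 6) => [(g * β⁻¹, 5), (g, 7)]
  | (g, 7) => [(g, 6), (g, 4), (g, 0)]

lemma nb_symm (α β : Γ) (u v : Γ × Fin 8) (h : v ∈ nb α β u) : u ∈ nb α β v := by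
  obtain ⟨g, x⟩ := u
  obtain ⟨k, y⟩ := v
  fin_cases x <;> fin_cases y <;> simp [nb] at h ⊢ <;> simp [h]

/-- The voltage graph. -/
def vg (α β : Γ) : SimpleGraph (Γ × Fin 8) where
  Adj u v := v ∈ nb α β u
  symm := ⟨fun u v h => nb_symm α β u v h⟩
  loopless := ⟨fun u h => by
    obtain ⟨g, x⟩ := u
    fin_cases x <;> simp [nb] at h⟩

lemma vg_adj (α β : Γ) (u v : Γ × Fin 8) : (vg α β).Adj u v ↔ v ∈ nb α β u := Iff.rfl

/-- The cliques of the voltage graph, indexed by `Γ × Fin 8`. -/
def cl (α β : Γ) : Γ × Fin 8 → List (Γ × Fin 8)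
  | (g, 0) => [(g, 0), (g, 4), (g, 7)]
  | (g, 1) => [(g, 4), (g, 5)]
  | (g, 2) => [(g, 5), (g * β, 6)]
  | (g, 3) => [(g * β, 6), (g * β, 7)]
  | (g, 4) => [(g, 0), (g, 1)]
  | (g, 5) => [(g, 1), (g, 2)]
  | (g, 6) => [(g * α⁻¹, 2), (g * α⁻¹, 3)]
  | (g, 7) => [(g * α⁻¹, 3), (g, 0)]

lemma cl_isClique (α β : Γ) (c u v : Γ × Fin 8) (hu : u ∈ cl α β c) (hv : v ∈ cl α β c)
    (huv : u ≠ v) : (vg α β).Adj u v := by
  rw [vg_adj]
  obtain ⟨g, x⟩ := c
  fin_cases x
  · simp only [cl, List.mem_cons, List.not_mem_nil, or_false] at hu hv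
    rcases hu with rfl | rfl | rfl <;> rcases hv with rfl | rfl | rfl <;> simp [nb] at huv ⊢
  all_goals
    simp only [cl, List.mem_cons, List.not_mem_nil, or_false] at hu hv
    rcases hu with rfl | rfl <;> rcases hv with rfl | rfl <;> simp [nb] at huv ⊢

lemma cl_maximal (α β : Γ) (c w : Γ × Fin 8)
    (h : ∀ u ∈ cl α β c, w ≠ u → (vg α β).Adj u w) : w ∈ cl α β c := by
  simp only [vg_adj] at h
  obtain ⟨g, x⟩ := c
  obtain ⟨k, y⟩ := w
  fin_cases x <;> fin_cases y <;> simp [cl, nb] at h ⊢
  all_goals exact h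

/-- a small closing step for the case analysis -/
lemma edge_mem_cl (α β : Γ) (u v : Γ × Fin 8) (h : (vg α β).Adj u v) :
    ∃ c, u ∈ cl α β c ∧ v ∈ cl α β c ∧
      ∀ w, (vg α β).Adj u w → (vg α β).Adj v w → w ∈ cl α β c := by
  simp only [vg_adj] at h ⊢
  obtain ⟨g, x⟩ := u
  fin_cases x
  · simp only [nb, List.mem_cons, List.not_mem_nil, or_false] at h
    rcases h with rfl | rfl | rfl | rfl
    · refine ⟨(g, 4), by simp [cl], by simp [cl], fun w h1 h2 => ?_⟩
      obtain ⟨k, y⟩ := w
      fin_cases y <;> simp [nb, cl] at h1 h2 ⊢ <;> simp_all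
    · refine ⟨(g, 7), by simp [cl], by simp [cl], fun w h1 h2 => ?_⟩
      obtain ⟨k, y⟩ := w
      fin_cases y <;> simp [nb, cl] at h1 h2 ⊢ <;> simp_all
    · refine ⟨(g, 0), by simp [cl], by simp [cl], fun w h1 h2 => ?_⟩
      obtain ⟨k, y⟩ := w
      fin_cases y <;> simp [nb, cl] at h1 h2 ⊢ <;> simp_all
    · refine ⟨(g, 0), by simp [cl], by simp [cl], fun w h1 h2 => ?_⟩
      obtain ⟨k, y⟩ := w
      fin_cases y <;> simp [nb, cl] at h1 h2 ⊢ <;> simp_all
  · simp only [nb, List.mem_cons, List.not_mem_nil, or_false] at h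
    rcases h with rfl | rfl
    · refine ⟨(g, 4), by simp [cl], by simp [cl], fun w h1 h2 => ?_⟩
      obtain ⟨k, y⟩ := w
      fin_cases y <;> simp [nb, cl] at h1 h2 ⊢ <;> simp_all
    · refine ⟨(g, 5), by simp [cl], by simp [cl], fun w h1 h2 => ?_⟩
      obtain ⟨k, y⟩ := w
      fin_cases y <;> simp [nb, cl] at h1 h2 ⊢ <;> simp_all
  · simp only [nb, List.mem_cons, List.not_mem_nil, or_false] at h
    rcases h with rfl | rfl
    · refine ⟨(g, 5), by simp [cl], by simp [cl], fun w h1 h2 => ?_⟩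
      obtain ⟨k, y⟩ := w
      fin_cases y <;> simp [nb, cl] at h1 h2 ⊢ <;> simp_all
    · refine ⟨(g * α, 6), by simp [cl], by simp [cl], fun w h1 h2 => ?_⟩
      obtain ⟨k, y⟩ := w
      fin_cases y <;> simp [nb, cl] at h1 h2 ⊢ <;> simp_all
  · simp only [nb, List.mem_cons, List.not_mem_nil, or_false] at h
    rcases h with rfl | rfl
    · refine ⟨(g * α, 6), by simp [cl], by simp [cl], fun w h1 h2 => ?_⟩
      obtain ⟨k, y⟩ := w
      fin_cases y <;> simp [nb, cl] at h1 h2 ⊢ <;> simp_all
    · refine ⟨(g * α, 7), by simp [cl], by simp [cl], fun w h1 h2 => ?_⟩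
      obtain ⟨k, y⟩ := w
      fin_cases y <;> simp [nb, cl] at h1 h2 ⊢ <;> simp_all
  · simp only [nb, List.mem_cons, List.not_mem_nil, or_false] at h
    rcases h with rfl | rfl | rfl
    · refine ⟨(g, 0), by simp [cl], by simp [cl], fun w h1 h2 => ?_⟩
      obtain ⟨k, y⟩ := w
      fin_cases y <;> simp [nb, cl] at h1 h2 ⊢ <;> simp_all
    · refine ⟨(g, 1), by simp [cl], by simp [cl], fun w h1 h2 => ?_⟩
      obtain ⟨k, y⟩ := w
      fin_cases y <;> simp [nb, cl] at h1 h2 ⊢ <;> simp_all
    · refine ⟨(g, 0), by simp [cl], by simp [cl], fun w h1 h2 => ?_⟩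
      obtain ⟨k, y⟩ := w
      fin_cases y <;> simp [nb, cl] at h1 h2 ⊢ <;> simp_all
  · simp only [nb, List.mem_cons, List.not_mem_nil, or_false] at h
    rcases h with rfl | rfl
    · refine ⟨(g, 1), by simp [cl], by simp [cl], fun w h1 h2 => ?_⟩
      obtain ⟨k, y⟩ := w
      fin_cases y <;> simp [nb, cl] at h1 h2 ⊢ <;> simp_all
    · refine ⟨(g, 2), by simp [cl], by simp [cl], fun w h1 h2 => ?_⟩
      obtain ⟨k, y⟩ := w
      fin_cases y <;> simp [nb, cl] at h1 h2 ⊢ <;> simp_all
  · simp only [nb, List.mem_cons, List.not_mem_nil, or_false] at h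
    rcases h with rfl | rfl
    · refine ⟨(g * β⁻¹, 2), by simp [cl], by simp [cl], fun w h1 h2 => ?_⟩
      obtain ⟨k, y⟩ := w
      fin_cases y <;> simp [nb, cl] at h1 h2 ⊢ <;> simp_all
    · refine ⟨(g * β⁻¹, 3), by simp [cl], by simp [cl], fun w h1 h2 => ?_⟩
      obtain ⟨k, y⟩ := w
      fin_cases y <;> simp [nb, cl] at h1 h2 ⊢ <;> simp_all
  · simp only [nb, List.mem_cons, List.not_mem_nil, or_false] at h
    rcases h with rfl | rfl | rfl
    · refine ⟨(g * β⁻¹, 3), by simp [cl], by simp [cl], fun w h1 h2 => ?_⟩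
      obtain ⟨k, y⟩ := w
      fin_cases y <;> simp [nb, cl] at h1 h2 ⊢ <;> simp_all
    · refine ⟨(g, 0), by simp [cl], by simp [cl], fun w h1 h2 => ?_⟩
      obtain ⟨k, y⟩ := w
      fin_cases y <;> simp [nb, cl] at h1 h2 ⊢ <;> simp_all
    · refine ⟨(g, 0), by simp [cl], by simp [cl], fun w h1 h2 => ?_⟩
      obtain ⟨k, y⟩ := w
      fin_cases y <;> simp [nb, cl] at h1 h2 ⊢ <;> simp_all

lemma cl_injective (α β : Γ) (c d : Γ × Fin 8) (h : ∀ u ∈ cl α β c, u ∈ cl α β d)
    (h' : ∀ u ∈ cl α β d, u ∈ cl α β c) : c = d := by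
  obtain ⟨g, x⟩ := c
  obtain ⟨k, y⟩ := d
  fin_cases x <;> fin_cases y <;> simp [cl] at h h' ⊢
  all_goals simp_all

lemma adj_iff_cl (α β : Γ) (c d : Γ × Fin 8) :
    (vg β α).Adj c d ↔ c ≠ d ∧ ∃ u, u ∈ cl α β c ∧ u ∈ cl α β d := by
  rw [vg_adj]
  obtain ⟨g, x⟩ := c
  obtain ⟨k, y⟩ := d
  fin_cases x <;> fin_cases y <;> simp [cl, nb]
  all_goals first | exact eq_comm | (constructor <;> (rintro rfl; simp))

lemma cl_max (α β : Γ) (c : Γ × Fin 8) :
    Maximal (fun T : Set (Γ × Fin 8) => (vg α β).IsClique T) {u | u ∈ cl α β c} := by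
  refine ⟨fun u hu v hv huv => cl_isClique α β c u v hu hv huv, ?_⟩
  intro T hT hsub w hw
  apply cl_maximal
  intro u hu hwu
  exact hT (hsub hu) hw hwu.symm

lemma exists_adj (α β : Γ) (u : Γ × Fin 8) : ∃ v, (vg α β).Adj u v := by
  simp only [vg_adj]
  obtain ⟨g, x⟩ := u
  fin_cases x <;> exact ⟨_, List.mem_cons_self⟩

lemma exists_cl (α β : Γ) (S : Set (Γ × Fin 8))
    (hS : Maximal (fun T : Set (Γ × Fin 8) => (vg α β).IsClique T) S) :
    ∃ c, S = {u | u ∈ cl α β c} := by
  obtain ⟨hcl, hmax⟩ := hS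
  have hpair : ∀ u v, (vg α β).Adj u v → (vg α β).IsClique {u, v} := by
    intro u v huv a ha b hb hab
    simp only [Set.mem_insert_iff, Set.mem_singleton_iff] at ha hb
    rcases ha with rfl | rfl <;> rcases hb with rfl | rfl
    · exact absurd rfl hab
    · exact huv
    · exact huv.symm
    · exact absurd rfl hab
  -- `S` has a vertex
  have hne : S.Nonempty := by
    by_contra hempty
    rw [Set.not_nonempty_iff_eq_empty] at hempty
    obtain ⟨v, hv⟩ := exists_adj α β ((1 : Γ), (0 : Fin 8))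
    have := hmax (hpair _ _ hv) (by rw [hempty]; exact Set.empty_subset _) (Set.mem_insert _ _)
    rw [hempty] at this
    exact this
  obtain ⟨u, hu⟩ := hne
  -- `S` has a second vertex
  obtain ⟨v, hv, huv⟩ : ∃ v, v ∈ S ∧ u ≠ v := by
    by_contra hcon
    push Not at hcon
    obtain ⟨v, hv⟩ := exists_adj α β u
    have hvS : v ∈ S := hmax (hpair _ _ hv) (by
      intro w hw
      rw [← hcon w hw]
      exact Set.mem_insert _ _) (Set.mem_insert_of_mem _ rfl)
    exact hv.ne (hcon v hvS)
  obtain ⟨c, h1, h2, h3⟩ := edge_mem_cl α β u v (hcl hu hv huv)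
  refine ⟨c, ?_⟩
  have hsub : S ⊆ {u | u ∈ cl α β c} := by
    intro w hw
    by_cases hwu : u = w
    · rw [← hwu]; exact h1
    · by_cases hwv : v = w
      · rw [← hwv]; exact h2
      · exact h3 w (hcl hu hw hwu) (hcl hv hw hwv)
  exact Set.Subset.antisymm hsub (hmax (cl_max α β c).1 hsub)

/-- The clique graph of `vg α β` is `vg β α`. -/
theorem cliqueGraph_vg (α β : Γ) : Nonempty (cliqueGraph (vg α β) ≃g vg β α) := by
  have hadj : ∀ c d, (vg β α).Adj c d ↔ c ≠ d ∧ ∃ u, u ∈ cl α β c ∧ u ∈ cl α β d :=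
    adj_iff_cl α β
  have hinj : Function.Injective (fun c => (⟨{u | u ∈ cl α β c}, cl_max α β c⟩ :
      {S : Set (Γ × Fin 8) // Maximal (fun T : Set (Γ × Fin 8) => (vg α β).IsClique T) S})) := by
    intro c d h
    have h' : {u | u ∈ cl α β c} = {u | u ∈ cl α β d} := congrArg Subtype.val h
    apply cl_injective α β
    · intro u hu
      have : u ∈ {u | u ∈ cl α β c} := hu
      rw [h'] at this; exact this
    · intro u hu
      have : u ∈ {u | u ∈ cl α β d} := hu
      rw [← h'] at this; exact this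
  have e : vg β α ≃g cliqueGraph (vg α β) := by
    refine ⟨Equiv.ofBijective _ ⟨hinj, ?_⟩, ?_⟩
    · rintro ⟨S, hS⟩
      obtain ⟨c, hc⟩ := exists_cl α β S hS
      exact ⟨c, Subtype.ext hc.symm⟩
    · intro c d
      rw [hadj]
      constructor
      · rintro ⟨h1, u, h2, h3⟩
        exact ⟨fun h => h1 (by rw [h]), u, h2, h3⟩
      · rintro ⟨h1, u, h2, h3⟩
        exact ⟨fun h => h1 (hinj h), u, h2, h3⟩
  exact ⟨e.symm⟩

/-! ### Connectedness -/

lemma vg_connected (α β : Γ) (h : Subgroup.closure {α, β} = ⊤) : (vg α β).Connected := by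
  have step : ∀ u v, v ∈ nb α β u → (vg α β).Reachable u v := fun u v huv =>
    SimpleGraph.Adj.reachable ((vg_adj α β u v).2 huv)
  have e1 : ∀ g : Γ, (vg α β).Reachable (g, 0) (g, 1) := fun g => step _ _ (by simp [nb])
  have e2 : ∀ g : Γ, (vg α β).Reachable (g, 0) (g, 2) := fun g =>
    (e1 g).trans (step _ _ (by simp [nb]))
  have e3 : ∀ g : Γ, (vg α β).Reachable (g, 0) (g, 3) := fun g =>
    (e2 g).trans (step _ _ (by simp [nb]))
  have e4 : ∀ g : Γ, (vg α β).Reachable (g, 0) (g, 4) := fun g => step _ _ (by simp [nb])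
  have e5 : ∀ g : Γ, (vg α β).Reachable (g, 0) (g, 5) := fun g =>
    (e4 g).trans (step _ _ (by simp [nb]))
  have e7 : ∀ g : Γ, (vg α β).Reachable (g, 0) (g, 7) := fun g => step _ _ (by simp [nb])
  have e6 : ∀ g : Γ, (vg α β).Reachable (g, 0) (g, 6) := fun g =>
    (e7 g).trans (step _ _ (by simp [nb]))
  have e : ∀ (g : Γ) (x : Fin 8), (vg α β).Reachable (g, 0) (g, x) := by
    intro g x
    fin_cases x
    · exact SimpleGraph.Reachable.refl _
    · exact e1 g
    · exact e2 g
    · exact e3 g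
    · exact e4 g
    · exact e5 g
    · exact e6 g
    · exact e7 g
  have ha : ∀ g : Γ, (vg α β).Reachable (g, 0) (g * α, 0) := fun g =>
    (e3 g).trans (step _ _ (by simp [nb]))
  have hb : ∀ g : Γ, (vg α β).Reachable (g, 0) (g * β, 0) := fun g =>
    ((e5 g).trans (step (g, 5) (g * β, 6) (by simp [nb]))).trans (e6 (g * β)).symm
  have key : ∀ k : Γ, ∀ g : Γ, (vg α β).Reachable (g, 0) (g * k, 0) := by
    intro k
    have hk : k ∈ Subgroup.closure {α, β} := by rw [h]; trivial
    induction hk using Subgroup.closure_induction with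
    | mem x hx =>
      intro g
      simp only [Set.mem_insert_iff, Set.mem_singleton_iff] at hx
      rcases hx with rfl | rfl
      · exact ha g
      · exact hb g
    | one => intro g; rw [mul_one]
    | mul x y _ _ hx hy =>
      intro g
      rw [← mul_assoc]
      exact (hx g).trans (hy (g * x))
    | inv x _ hx =>
      intro g
      have := hx (g * x⁻¹)
      rw [inv_mul_cancel_right] at this
      exact this.symm
  have : Nonempty (Γ × Fin 8) := ⟨(1, 0)⟩
  refine ⟨?_⟩
  rintro ⟨g, x⟩ ⟨k, y⟩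
  have h1 := key (g⁻¹ * k) g
  rw [mul_inv_cancel_left] at h1
  exact ((e g x).symm.trans h1).trans (e k y)

/-! ### Coverings -/

lemma nb_map {Γ' : Type*} [Group Γ'] (ρ : Γ →* Γ') (α β : Γ) (u : Γ × Fin 8) :
    nb (ρ α) (ρ β) (ρ u.1, u.2) = (nb α β u).map (fun w => (ρ w.1, w.2)) := by
  obtain ⟨g, x⟩ := u
  fin_cases x <;> simp [nb]

lemma nb_tri (α β : Γ) (v a z b : Γ × Fin 8) (ha : a ∈ nb α β v) (hb : b ∈ nb α β v)
    (hz : z ∈ nb α β a) (h2 : z.2 = b.2) : z = b := by
  obtain ⟨g, x⟩ := v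
  fin_cases x
  · simp only [nb, List.mem_cons, List.not_mem_nil, or_false] at ha
    rcases ha with rfl | rfl | rfl | rfl
    · simp only [nb, List.mem_cons, List.not_mem_nil, or_false] at hz hb
      rcases hz with rfl | rfl <;> rcases hb with rfl | rfl | rfl | rfl <;> simp at h2 ⊢
    · simp only [nb, List.mem_cons, List.not_mem_nil, or_false] at hz hb
      rcases hz with rfl | rfl <;> rcases hb with rfl | rfl | rfl | rfl <;> simp at h2 ⊢
    · simp only [nb, List.mem_cons, List.not_mem_nil, or_false] at hz hb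
      rcases hz with rfl | rfl | rfl <;> rcases hb with rfl | rfl | rfl | rfl <;> simp at h2 ⊢
    · simp only [nb, List.mem_cons, List.not_mem_nil, or_false] at hz hb
      rcases hz with rfl | rfl | rfl <;> rcases hb with rfl | rfl | rfl | rfl <;> simp at h2 ⊢
  · simp only [nb, List.mem_cons, List.not_mem_nil, or_false] at ha
    rcases ha with rfl | rfl
    · simp only [nb, List.mem_cons, List.not_mem_nil, or_false] at hz hb
      rcases hz with rfl | rfl | rfl | rfl <;> rcases hb with rfl | rfl <;> simp at h2 ⊢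
    · simp only [nb, List.mem_cons, List.not_mem_nil, or_false] at hz hb
      rcases hz with rfl | rfl <;> rcases hb with rfl | rfl <;> simp at h2 ⊢
  · simp only [nb, List.mem_cons, List.not_mem_nil, or_false] at ha
    rcases ha with rfl | rfl
    · simp only [nb, List.mem_cons, List.not_mem_nil, or_false] at hz hb
      rcases hz with rfl | rfl <;> rcases hb with rfl | rfl <;> simp at h2 ⊢
    · simp only [nb, List.mem_cons, List.not_mem_nil, or_false] at hz hb
      rcases hz with rfl | rfl <;> rcases hb with rfl | rfl <;> simp at h2 ⊢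
  · simp only [nb, List.mem_cons, List.not_mem_nil, or_false] at ha
    rcases ha with rfl | rfl
    · simp only [nb, List.mem_cons, List.not_mem_nil, or_false] at hz hb
      rcases hz with rfl | rfl <;> rcases hb with rfl | rfl <;> simp at h2 ⊢
    · simp only [nb, List.mem_cons, List.not_mem_nil, or_false] at hz hb
      rcases hz with rfl | rfl | rfl | rfl <;> rcases hb with rfl | rfl <;> simp at h2 ⊢
  · simp only [nb, List.mem_cons, List.not_mem_nil, or_false] at ha
    rcases ha with rfl | rfl | rfl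
    · simp only [nb, List.mem_cons, List.not_mem_nil, or_false] at hz hb
      rcases hz with rfl | rfl | rfl | rfl <;> rcases hb with rfl | rfl | rfl <;> simp at h2 ⊢
    · simp only [nb, List.mem_cons, List.not_mem_nil, or_false] at hz hb
      rcases hz with rfl | rfl <;> rcases hb with rfl | rfl | rfl <;> simp at h2 ⊢
    · simp only [nb, List.mem_cons, List.not_mem_nil, or_false] at hz hb
      rcases hz with rfl | rfl | rfl <;> rcases hb with rfl | rfl | rfl <;> simp at h2 ⊢
  · simp only [nb, List.mem_cons, List.not_mem_nil, or_false] at ha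
    rcases ha with rfl | rfl
    · simp only [nb, List.mem_cons, List.not_mem_nil, or_false] at hz hb
      rcases hz with rfl | rfl | rfl <;> rcases hb with rfl | rfl <;> simp at h2 ⊢
    · simp only [nb, List.mem_cons, List.not_mem_nil, or_false] at hz hb
      rcases hz with rfl | rfl <;> rcases hb with rfl | rfl <;> simp at h2 ⊢
  · simp only [nb, List.mem_cons, List.not_mem_nil, or_false] at ha
    rcases ha with rfl | rfl
    · simp only [nb, List.mem_cons, List.not_mem_nil, or_false] at hz hb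
      rcases hz with rfl | rfl <;> rcases hb with rfl | rfl <;> simp at h2 ⊢
    · simp only [nb, List.mem_cons, List.not_mem_nil, or_false] at hz hb
      rcases hz with rfl | rfl | rfl <;> rcases hb with rfl | rfl <;> simp at h2 ⊢
  · simp only [nb, List.mem_cons, List.not_mem_nil, or_false] at ha
    rcases ha with rfl | rfl | rfl
    · simp only [nb, List.mem_cons, List.not_mem_nil, or_false] at hz hb
      rcases hz with rfl | rfl <;> rcases hb with rfl | rfl | rfl <;> simp at h2 ⊢
    · simp only [nb, List.mem_cons, List.not_mem_nil, or_false] at hz hb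
      rcases hz with rfl | rfl | rfl <;> rcases hb with rfl | rfl | rfl <;> simp at h2 ⊢
    · simp only [nb, List.mem_cons, List.not_mem_nil, or_false] at hz hb
      rcases hz with rfl | rfl | rfl | rfl <;> rcases hb with rfl | rfl | rfl <;> simp at h2 ⊢

lemma nb_snd_ne (α β : Γ) (u v : Γ × Fin 8) (h : v ∈ nb α β u) : v.2 ≠ u.2 := by
  obtain ⟨g, x⟩ := u
  fin_cases x
  · simp only [nb, List.mem_cons, List.not_mem_nil, or_false] at h
    rcases h with rfl | rfl | rfl | rfl <;> simp
  · simp only [nb, List.mem_cons, List.not_mem_nil, or_false] at h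
    rcases h with rfl | rfl <;> simp
  · simp only [nb, List.mem_cons, List.not_mem_nil, or_false] at h
    rcases h with rfl | rfl <;> simp
  · simp only [nb, List.mem_cons, List.not_mem_nil, or_false] at h
    rcases h with rfl | rfl <;> simp
  · simp only [nb, List.mem_cons, List.not_mem_nil, or_false] at h
    rcases h with rfl | rfl | rfl <;> simp
  · simp only [nb, List.mem_cons, List.not_mem_nil, or_false] at h
    rcases h with rfl | rfl <;> simp
  · simp only [nb, List.mem_cons, List.not_mem_nil, or_false] at h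
    rcases h with rfl | rfl <;> simp
  · simp only [nb, List.mem_cons, List.not_mem_nil, or_false] at h
    rcases h with rfl | rfl | rfl <;> simp

lemma nb_snd_inj (α β : Γ) (u v w : Γ × Fin 8) (hv : v ∈ nb α β u) (hw : w ∈ nb α β u)
    (h : v.2 = w.2) : v = w := by
  obtain ⟨g, x⟩ := u
  fin_cases x
  · simp only [nb, List.mem_cons, List.not_mem_nil, or_false] at hv hw
    rcases hv with rfl | rfl | rfl | rfl <;> rcases hw with rfl | rfl | rfl | rfl <;> simp at h ⊢
  · simp only [nb, List.mem_cons, List.not_mem_nil, or_false] at hv hw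
    rcases hv with rfl | rfl <;> rcases hw with rfl | rfl <;> simp at h ⊢
  · simp only [nb, List.mem_cons, List.not_mem_nil, or_false] at hv hw
    rcases hv with rfl | rfl <;> rcases hw with rfl | rfl <;> simp at h ⊢
  · simp only [nb, List.mem_cons, List.not_mem_nil, or_false] at hv hw
    rcases hv with rfl | rfl <;> rcases hw with rfl | rfl <;> simp at h ⊢
  · simp only [nb, List.mem_cons, List.not_mem_nil, or_false] at hv hw
    rcases hv with rfl | rfl | rfl <;> rcases hw with rfl | rfl | rfl <;> simp at h ⊢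
  · simp only [nb, List.mem_cons, List.not_mem_nil, or_false] at hv hw
    rcases hv with rfl | rfl <;> rcases hw with rfl | rfl <;> simp at h ⊢
  · simp only [nb, List.mem_cons, List.not_mem_nil, or_false] at hv hw
    rcases hv with rfl | rfl <;> rcases hw with rfl | rfl <;> simp at h ⊢
  · simp only [nb, List.mem_cons, List.not_mem_nil, or_false] at hv hw
    rcases hv with rfl | rfl | rfl <;> rcases hw with rfl | rfl | rfl <;> simp at h ⊢

theorem vg_covering {Γ' : Type*} [Group Γ'] (ρ : Γ →* Γ') (α β : Γ)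
    (h : Subgroup.closure {α, β} = ⊤) (h' : Subgroup.closure {ρ α, ρ β} = ⊤) :
    IsTriangularCovering (vg α β) (vg (ρ α) (ρ β)) (fun w => (ρ w.1, w.2)) := by
  have hmap : ∀ u v, (vg α β).Adj u v → (vg (ρ α) (ρ β)).Adj (ρ u.1, u.2) (ρ v.1, v.2) := by
    intro u v huv
    rw [vg_adj] at huv ⊢
    rw [nb_map]
    exact List.mem_map_of_mem huv
  refine ⟨vg_connected α β h, vg_connected _ _ h', hmap, ?_, ?_⟩
  · intro v
    refine ⟨?_, ?_, ?_⟩
    · rintro w (hw | hw)
      · left; rw [hw]
      · right; exact hmap v w hw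
    · intro a ha b hb hab
      have h2 : a.2 = b.2 := (Prod.mk.inj hab).2
      have ha' : a = v ∨ a ∈ nb α β v := ha
      have hb' : b = v ∨ b ∈ nb α β v := hb
      rcases ha' with rfl | ha' <;> rcases hb' with rfl | hb'
      · rfl
      · exact absurd h2.symm (nb_snd_ne α β _ _ hb')
      · exact absurd h2 (nb_snd_ne α β _ _ ha')
      · exact nb_snd_inj α β _ _ _ ha' hb' h2
    · rintro w (hw | hw)
      · exact ⟨v, Or.inl rfl, hw.symm⟩
      · rw [vg_adj, nb_map, List.mem_map] at hw
        obtain ⟨z, hz, hzw⟩ := hw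
        exact ⟨z, Or.inr hz, hzw⟩
  · intro v a ha b hb
    constructor
    · exact hmap a b
    · intro hab
      have ha' : a = v ∨ a ∈ nb α β v := ha
      have hb' : b = v ∨ b ∈ nb α β v := hb
      rw [vg_adj, nb_map, List.mem_map] at hab
      obtain ⟨z, hz, hzb⟩ := hab
      rw [vg_adj]
      have h2 : z.2 = b.2 := (Prod.mk.inj hzb).2
      rcases ha' with rfl | ha'
      · rcases hb' with rfl | hb'
        · exact absurd h2 (nb_snd_ne α β _ _ hz)
        · exact hb'
      · rcases hb' with rfl | hb'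
        · exact nb_symm α β _ _ ha'
        · rw [← nb_tri α β v a z b ha' hb' hz h2]
          exact hz

/-! ### The invariant that distinguishes `vg 1 β'` and `vg α β` -/

lemma no_square (α β : Γ) (hα : α ≠ 1) (v0 v1 v2 v3 v4 v7 : Γ × Fin 8)
    (h01 : v1 ∈ nb α β v0) (h03 : v3 ∈ nb α β v0) (h04 : v4 ∈ nb α β v0) (h07 : v7 ∈ nb α β v0)
    (h12 : v2 ∈ nb α β v1) (h23 : v3 ∈ nb α β v2) (n02 : v0 ≠ v2) (n13 : v1 ≠ v3) (n14 : v1 ≠ v4)
    (n17 : v1 ≠ v7) (n34 : v3 ≠ v4) (n37 : v3 ≠ v7) (n47 : v4 ≠ v7) : False := by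
  obtain ⟨g, x⟩ := v0
  fin_cases x
  · simp only [nb, List.mem_cons, List.not_mem_nil, or_false] at h01
    rcases h01 with rfl | rfl | rfl | rfl
    · simp only [nb, List.mem_cons, List.not_mem_nil, or_false] at h12
      rcases h12 with rfl | rfl
      · simp only [nb, List.mem_cons, List.not_mem_nil, or_false] at h23 h03
        rcases h23 with rfl | rfl | rfl | rfl <;> simp_all
      · simp only [nb, List.mem_cons, List.not_mem_nil, or_false] at h23 h03
        rcases h23 with rfl | rfl <;> simp_all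
    · simp only [nb, List.mem_cons, List.not_mem_nil, or_false] at h12
      rcases h12 with rfl | rfl
      · simp only [nb, List.mem_cons, List.not_mem_nil, or_false] at h23 h03
        rcases h23 with rfl | rfl <;> simp_all
      · simp only [nb, List.mem_cons, List.not_mem_nil, or_false] at h23 h03
        rcases h23 with rfl | rfl | rfl | rfl <;> simp_all
    · simp only [nb, List.mem_cons, List.not_mem_nil, or_false] at h12
      rcases h12 with rfl | rfl | rfl
      · simp only [nb, List.mem_cons, List.not_mem_nil, or_false] at h23 h03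
        rcases h23 with rfl | rfl | rfl | rfl <;> simp_all
      · simp only [nb, List.mem_cons, List.not_mem_nil, or_false] at h23 h03
        rcases h23 with rfl | rfl <;> simp_all
      · simp only [nb, List.mem_cons, List.not_mem_nil, or_false] at h23 h03
        rcases h23 with rfl | rfl | rfl <;> simp_all
    · simp only [nb, List.mem_cons, List.not_mem_nil, or_false] at h12
      rcases h12 with rfl | rfl | rfl
      · simp only [nb, List.mem_cons, List.not_mem_nil, or_false] at h23 h03
        rcases h23 with rfl | rfl <;> simp_all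
      · simp only [nb, List.mem_cons, List.not_mem_nil, or_false] at h23 h03
        rcases h23 with rfl | rfl | rfl <;> simp_all
      · simp only [nb, List.mem_cons, List.not_mem_nil, or_false] at h23 h03
        rcases h23 with rfl | rfl | rfl | rfl <;> simp_all
  · simp only [nb, List.mem_cons, List.not_mem_nil, or_false] at h01 h03 h04 h07
    rcases h01 with rfl | rfl <;> rcases h03 with rfl | rfl <;> first | exact n13 rfl | skip
    all_goals rcases h04 with rfl | rfl <;> first | exact n14 rfl | exact n34 rfl | skip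
  · simp only [nb, List.mem_cons, List.not_mem_nil, or_false] at h01 h03 h04 h07
    rcases h01 with rfl | rfl <;> rcases h03 with rfl | rfl <;> first | exact n13 rfl | skip
    all_goals rcases h04 with rfl | rfl <;> first | exact n14 rfl | exact n34 rfl | skip
  · simp only [nb, List.mem_cons, List.not_mem_nil, or_false] at h01 h03 h04 h07
    rcases h01 with rfl | rfl <;> rcases h03 with rfl | rfl <;> first | exact n13 rfl | skip
    all_goals rcases h04 with rfl | rfl <;> first | exact n14 rfl | exact n34 rfl | skip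
  · simp only [nb, List.mem_cons, List.not_mem_nil, or_false] at h01 h03 h04 h07
    rcases h01 with rfl | rfl | rfl <;> rcases h03 with rfl | rfl | rfl <;> first | exact n13 rfl | skip
    all_goals rcases h04 with rfl | rfl | rfl <;> first | exact n14 rfl | exact n34 rfl | skip
    all_goals rcases h07 with rfl | rfl | rfl <;> first | exact n17 rfl | exact n37 rfl | exact n47 rfl
  · simp only [nb, List.mem_cons, List.not_mem_nil, or_false] at h01 h03 h04 h07
    rcases h01 with rfl | rfl <;> rcases h03 with rfl | rfl <;> first | exact n13 rfl | skip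
    all_goals rcases h04 with rfl | rfl <;> first | exact n14 rfl | exact n34 rfl | skip
  · simp only [nb, List.mem_cons, List.not_mem_nil, or_false] at h01 h03 h04 h07
    rcases h01 with rfl | rfl <;> rcases h03 with rfl | rfl <;> first | exact n13 rfl | skip
    all_goals rcases h04 with rfl | rfl <;> first | exact n14 rfl | exact n34 rfl | skip
  · simp only [nb, List.mem_cons, List.not_mem_nil, or_false] at h01 h03 h04 h07
    rcases h01 with rfl | rfl | rfl <;> rcases h03 with rfl | rfl | rfl <;> first | exact n13 rfl | skip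
    all_goals rcases h04 with rfl | rfl | rfl <;> first | exact n14 rfl | exact n34 rfl | skip
    all_goals rcases h07 with rfl | rfl | rfl <;> first | exact n17 rfl | exact n37 rfl | exact n47 rfl

lemma vg_not_iso {Γ' : Type*} [Group Γ'] (β' : Γ') (α β : Γ) (hα : α ≠ 1) :
    IsEmpty (vg (1 : Γ') β' ≃g vg α β) := by
  refine ⟨fun e => ?_⟩
  have hadj : ∀ u v, v ∈ nb (1 : Γ') β' u → e v ∈ nb α β (e u) := by
    intro u v huv
    have := e.map_adj_iff.2 ((vg_adj _ _ u v).2 huv)
    exact (vg_adj _ _ _ _).1 this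
  have h01 := hadj (1, 0) (1, 1) (by simp [nb])
  have h04 := hadj (1, 0) (1, 4) (by simp [nb])
  have h07 := hadj (1, 0) (1, 7) (by simp [nb])
  have h03 := hadj (1, 0) (1, 3) (by simp [nb])
  have h12 := hadj (1, 1) (1, 2) (by simp [nb])
  have h23 := hadj (1, 2) (1, 3) (by simp [nb])
  have hne : ∀ x y : Fin 8, x ≠ y → e ((1 : Γ'), x) ≠ e ((1 : Γ'), y) := by
    intro x y hxy h
    exact hxy (Prod.mk.inj (e.injective h)).2
  have n02 := hne 0 2 (by decide)
  have n13 := hne 1 3 (by decide)
  have n14 := hne 1 4 (by decide)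
  have n17 := hne 1 7 (by decide)
  have n34 := hne 3 4 (by decide)
  have n37 := hne 3 7 (by decide)
  have n47 := hne 4 7 (by decide)
  exact no_square α β hα _ _ _ _ _ _ h01 h03 h04 h07 h12 h23 n02 n13 n14 n17 n34 n37 n47

/-- A group isomorphism induces a graph isomorphism. -/
lemma vg_congr {Γ' : Type*} [Group Γ'] (τ : Γ ≃* Γ') (α β : Γ) :
    Nonempty (vg α β ≃g vg (τ α) (τ β)) := by
  refine ⟨⟨⟨fun w => (τ w.1, w.2), fun w => (τ.symm w.1, w.2), fun w => by simp,
    fun w => by simp⟩, ?_⟩⟩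
  intro u v
  show (τ v.1, v.2) ∈ nb (τ α) (τ β) (τ u.1, u.2) ↔ v ∈ nb α β u
  have h := nb_map τ.toMonoidHom α β u
  have h' : nb (τ α) (τ β) (τ u.1, u.2) = (nb α β u).map (fun w => (τ w.1, w.2)) := h
  rw [h', List.mem_map]
  constructor
  · rintro ⟨z, hz, hzv⟩
    have h1 : τ z.1 = τ v.1 := (Prod.mk.inj hzv).1
    have h2 : z.2 = v.2 := (Prod.mk.inj hzv).2
    have : z = v := Prod.ext (τ.injective h1) h2
    rw [← this]; exact hz
  · intro hv
    exact ⟨v, hv, rfl⟩

/-- The iterated clique graphs of `vg α β` alternate between `vg α β` and `vg β α`. -/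
lemma iter_vg (α β : Γ) (m : ℕ) :
    Nonempty ((iterClique (2 * m) ⟨Γ × Fin 8, vg α β⟩).2 ≃g vg α β) ∧
      Nonempty ((iterClique (2 * m + 1) ⟨Γ × Fin 8, vg α β⟩).2 ≃g vg β α) := by
  have step : ∀ m, Nonempty ((iterClique (2 * m) ⟨Γ × Fin 8, vg α β⟩).2 ≃g vg α β) →
      Nonempty ((iterClique (2 * m + 1) ⟨Γ × Fin 8, vg α β⟩).2 ≃g vg β α) := by
    rintro m ⟨e⟩
    obtain ⟨f⟩ := cliqueGraph_congr e
    obtain ⟨g⟩ := cliqueGraph_vg α β
    exact ⟨f.trans g⟩
  induction m with
  | zero => exact ⟨⟨SimpleGraph.Iso.refl⟩, step 0 ⟨SimpleGraph.Iso.refl⟩⟩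
  | succ m ih =>
    obtain ⟨-, ⟨e⟩⟩ := ih
    have h : Nonempty ((iterClique (2 * (m + 1)) ⟨Γ × Fin 8, vg α β⟩).2 ≃g vg α β) := by
      obtain ⟨f⟩ := cliqueGraph_congr e
      obtain ⟨g⟩ := cliqueGraph_vg β α
      exact ⟨f.trans g⟩
    exact ⟨h, step _ h⟩

lemma iter_vg_odd (α β : Γ) {n : ℕ} (hn : Odd n) :
    Nonempty ((iterClique n ⟨Γ × Fin 8, vg α β⟩).2 ≃g vg β α) := by
  obtain ⟨m, rfl⟩ := hn
  exact (iter_vg α β m).2

/-- If `α` and `β` are exchanged by an automorphism, then `vg α β` is isomorphic to all its odd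
iterated clique graphs. -/
lemma periodic_of_swap (τ : Γ ≃* Γ) (α β : Γ) (h1 : τ β = α) (h2 : τ α = β) {n : ℕ}
    (hn : Odd n) : IsCliquePeriodic n (vg α β) := by
  obtain ⟨e⟩ := iter_vg_odd α β hn
  obtain ⟨f⟩ := vg_congr τ β α
  rw [h1, h2] at f
  exact ⟨e.trans f⟩

/-- If `α ≠ 1`, then `vg α 1` is isomorphic to none of its odd iterated clique graphs. -/
lemma not_periodic (α : Γ) (hα : α ≠ 1) {n : ℕ} (hn : Odd n) :
    ¬ IsCliquePeriodic n (vg α 1) := by
  rintro ⟨f⟩
  obtain ⟨e⟩ := iter_vg_odd α 1 hn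
  exact (vg_not_iso (α : Γ) α 1 hα).false (e.symm.trans f)

end Pool.Agent.MP_3c8d56_co
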